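import Mathlib

/-!
Words with constants in finite permutation groups: a non-singular mixed word has a bounded expected
number of fixed points.
-/

namespace Pool.Agent.R160.WC

open Equiv Equiv.Perm Finset

open scoped Pointwise

variable {ι : Type} [Fintype ι] [DecidableEq ι] {α : Type} [Fintype α] [DecidableEq α]

/-- A step: a constant permutation or a generator with a sign. -/
abbrev Step (ι α : Type) := Perm α ⊕ (ι × Bool)

/-- The permutation by which a step acts once the generators are assigned. -/
def act (x : ι → Perm α) : Step ι α → Perm α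
  | .inl c => c
  | .inr (i, true) => x i
  | .inr (i, false) => (x i)⁻¹

/-- The free part of a step. -/
def fr : Step ι α → FreeGroup ι
  | .inl _ => 1
  | .inr (i, true) => FreeGroup.of i
  | .inr (i, false) => (FreeGroup.of i)⁻¹

/-- The trajectory of a point. -/
def P (L : ℕ → Step ι α) (x : ι → Perm α) (p : α) : ℕ → α
  | 0 => p
  | t + 1 => act x (L t) (P L x p t)

/-- The partial products of the free parts. -/
def g (L : ℕ → Step ι α) : ℕ → FreeGroup ι
  | 0 => 1
  | t + 1 => fr (L t) * g L t

omit [Fintype ι] [DecidableEq ι] [Fintype α] [DecidableEq α] in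
lemma P_succ (L : ℕ → Step ι α) (x : ι → Perm α) (p : α) (t : ℕ) :
    P L x p (t + 1) = act x (L t) (P L x p t) := rfl

omit [Fintype ι] [DecidableEq ι] [Fintype α] [DecidableEq α] in
lemma g_succ (L : ℕ → Step ι α) (t : ℕ) : g L (t + 1) = fr (L t) * g L t := rfl

/-- The endpoint of the `s`-th edge from which a step of the same generator with sign `e` starts. -/
def near (L : ℕ → Step ι α) (x : ι → Perm α) (p : α) (e e' : Bool) (s : ℕ) : α :=
  if e' = e then P L x p s else P L x p (s + 1)

/-- The generator step at time `t` uses an edge not used before. -/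
def Fresh (L : ℕ → Step ι α) (x : ι → Perm α) (p : α) (t : ℕ) (i : ι) (e : Bool) : Prop :=
  ∀ s < t, ∀ e', L s = .inr (i, e') → near L x p e e' s ≠ P L x p t

/-- Coincidence at time `t`. -/
def Coinc (L : ℕ → Step ι α) (x : ι → Perm α) (p : α) (D : Finset (Perm α)) (t : ℕ) : Prop :=
  ∃ i e, L t = .inr (i, e) ∧ Fresh L x p t i e ∧ ∃ b ≤ t, ∃ κ ∈ D, P L x p (t + 1) = κ (P L x p b)

omit [Fintype ι] [DecidableEq ι] in
/-- Without coincidences the free part is a function of the position. -/
lemma det (L : ℕ → Step ι α) (x : ι → Perm α) (p : α) (K : Finset (Perm α)) (N : ℕ)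
    (h1 : (1 : Perm α) ∈ K) (hinv : ∀ κ ∈ K, κ⁻¹ ∈ K)
    (hc : ∀ t < N, ∀ c, L t = .inl c → c ∈ K)
    (hno : ∀ t < N, ¬ Coinc L x p (K ^ N) t) :
    ∀ t ≤ N, ∀ a ≤ t, ∀ b ≤ t, ∀ κ ∈ K ^ (N - t), P L x p a = κ (P L x p b) →
      g L a = g L b := by
  have hinvpow : ∀ m, ∀ κ ∈ K ^ m, κ⁻¹ ∈ K ^ m := by
    intro m κ hκ
    have hK : K⁻¹ = K := by
      ext κ
      rw [Finset.mem_inv']
      exact ⟨fun h => by simpa using hinv _ h, fun h => hinv _ h⟩
    have : κ⁻¹ ∈ (K ^ m)⁻¹ := Finset.inv_mem_inv hκ
    rwa [← inv_pow, hK] at this
  intro t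
  induction t with
  | zero =>
    intro _ a ha b hb κ hκ h
    have ha0 : a = 0 := by omega
    have hb0 : b = 0 := by omega
    rw [ha0, hb0]
  | succ t ih =>
    intro ht
    have ih' := ih (by omega)
    have hsub : K ^ (N - (t + 1)) ⊆ K ^ (N - t) := Finset.pow_subset_pow_right h1 (by omega)
    have hsub2 : K ^ (N - (t + 1)) ⊆ K ^ N := Finset.pow_subset_pow_right h1 (by omega)
    -- the one-sided statement
    have key : ∀ b ≤ t, ∀ κ ∈ K ^ (N - (t + 1)), P L x p (t + 1) = κ (P L x p b) →
        g L (t + 1) = g L b := by
      intro b hb κ hκ h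
      rcases hL : L t with c | ⟨i, e⟩
      · -- constant step
        have hcK := hc t (by omega) c hL
        have h2 : P L x p t = (c⁻¹ * κ) (P L x p b) := by
          rw [P_succ, hL] at h
          simp only [act] at h
          rw [Equiv.Perm.mul_apply, ← h]
          simp
        have h3 : c⁻¹ * κ ∈ K ^ (N - t) := by
          have : N - t = (N - (t + 1)) + 1 := by omega
          rw [this, pow_succ']
          exact Finset.mul_mem_mul (hinv c hcK) hκ
        have h4 := ih' t le_rfl b hb _ h3 h2
        rw [g_succ, hL]
        simp only [fr, one_mul]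
        exact h4
      · -- generator step
        by_cases hf : Fresh L x p t i e
        · exact absurd ⟨i, e, hL, hf, b, hb, κ, hsub2 hκ, h⟩ (hno t (by omega))
        · unfold Fresh at hf
          push Not at hf
          obtain ⟨s, hs, e', hLs, hne⟩ := hf
          have h1' : (1 : Perm α) ∈ K ^ (N - t) := Finset.one_mem_pow h1
          unfold near at hne
          by_cases hee : e' = e
          · rw [if_pos hee] at hne
            have hP : P L x p (t + 1) = P L x p (s + 1) := by
              rw [P_succ, P_succ, hL, hLs, hee, hne]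
            have hg : g L t = g L s := ih' t le_rfl s hs.le 1 h1' (by simpa using hne.symm)
            have hg' : g L (t + 1) = g L (s + 1) := by
              rw [g_succ, g_succ, hL, hLs, hee, hg]
            rw [hg']
            exact ih' (s + 1) (by omega) b hb κ (hsub hκ) (by rw [← hP]; exact h)
          · rw [if_neg hee] at hne
            have hP : P L x p (t + 1) = P L x p s := by
              rw [P_succ, ← hne, P_succ, hL, hLs]
              cases e <;> cases e' <;> simp_all [act]
            have hg : g L t = g L (s + 1) := ih' t le_rfl (s + 1) (by omega) 1 h1'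
              (by simpa using hne.symm)
            have hg' : g L (t + 1) = g L s := by
              rw [g_succ, hg, g_succ, hL, hLs]
              cases e <;> cases e' <;> simp_all [fr]
            rw [hg']
            exact ih' s (by omega) b hb κ (hsub hκ) (by rw [← hP]; exact h)
    intro a ha b hb κ hκ h
    rcases Nat.lt_or_ge a (t + 1) with ha' | ha'
    · rcases Nat.lt_or_ge b (t + 1) with hb' | hb'
      · exact ih' a (by omega) b (by omega) κ (hsub hκ) h
      · have hbt : b = t + 1 := by omega
        subst hbt
        have := key a (by omega) κ⁻¹ (hinvpow _ κ hκ) (by rw [h]; simp)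
        exact this.symm
    · have hat : a = t + 1 := by omega
      subst hat
      rcases Nat.lt_or_ge b (t + 1) with hb' | hb'
      · exact key b (by omega) κ hκ h
      · have hbt : b = t + 1 := by omega
        subst hbt
        rfl

/-- Modify the generator `i` so that the step `(i, e)` reaches `z'` instead of `z`. -/
def modi (x : ι → Perm α) (i : ι) (e : Bool) (z z' : α) : ι → Perm α :=
  Function.update x i (if e then swap z z' * x i else x i * swap z z')

omit [Fintype ι] [Fintype α] in
lemma modi_modi (x : ι → Perm α) (i : ι) (e : Bool) (z z' : α) :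
    modi (modi x i e z z') i e z z' = x := by
  unfold modi
  cases e
  · simp [mul_assoc]
  · simp [← mul_assoc]

omit [Fintype ι] [Fintype α] in
lemma act_modi (x : ι → Perm α) (i : ι) (e : Bool) (z z' : α) :
    act (modi x i e z z') (.inr (i, e)) = swap z z' * act x (.inr (i, e)) := by
  unfold modi
  cases e <;> simp [act]

omit [Fintype ι] [Fintype α] in
lemma act_modi_ne (x : ι → Perm α) (i : ι) (e e' : Bool) (z z' : α) (h : e' ≠ e) :
    act (modi x i e z z') (.inr (i, e')) = act x (.inr (i, e')) * swap z z' := by
  unfold modi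
  cases e <;> cases e' <;> simp_all [act]

omit [Fintype ι] [Fintype α] in
lemma act_modi_other (x : ι → Perm α) (i j : ι) (e e' : Bool) (z z' : α) (h : j ≠ i) :
    act (modi x i e z z') (.inr (j, e')) = act x (.inr (j, e')) := by
  unfold modi
  cases e' <;> simp [act, Function.update_of_ne h]

omit [Fintype ι] [Fintype α] in
/-- The trajectory up to time `t` does not change. -/
lemma P_modi (L : ℕ → Step ι α) (x : ι → Perm α) (p : α) (t : ℕ) (i : ι) (e : Bool)
    (hL : L t = .inr (i, e)) (hf : Fresh L x p t i e) (z' : α)
    (hz' : ∀ s ≤ t, P L x p s ≠ z') :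
    ∀ s ≤ t, P L (modi x i e (P L x p (t + 1)) z') p s = P L x p s := by
  intro s
  induction s with
  | zero => intro _; rfl
  | succ s ih =>
    intro hs
    rw [P_succ, ih (by omega)]
    have hz : P L x p (t + 1) = act x (.inr (i, e)) (P L x p t) := by rw [P_succ, hL]
    rcases hLs : L s with c | ⟨j, e'⟩
    · rw [P_succ L x p s, hLs]; rfl
    · by_cases hji : j = i
      · subst hji
        have hfs := hf s (by omega) e' hLs
        unfold near at hfs
        by_cases hee : e' = e
        · subst hee
          rw [if_pos rfl] at hfs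
          rw [act_modi, P_succ L x p s, hLs, Equiv.Perm.mul_apply]
          apply swap_apply_of_ne_of_ne
          · rw [hz]
            intro h
            exact hfs ((act x (.inr (j, e'))).injective h)
          · have := hz' (s + 1) (by omega)
            rwa [P_succ, hLs] at this
        · rw [if_neg hee] at hfs
          rw [act_modi_ne _ _ _ _ _ _ hee, P_succ L x p s, hLs, Equiv.Perm.mul_apply]
          congr 1
          apply swap_apply_of_ne_of_ne
          · rw [hz]
            intro h
            apply hfs
            rw [P_succ, hLs, h]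
            cases e <;> cases e' <;> simp_all [act]
          · exact hz' s (by omega)
      · rw [act_modi_other _ _ _ _ _ _ _ hji, P_succ L x p s, hLs]

omit [Fintype ι] [Fintype α] in
lemma P_modi_last (L : ℕ → Step ι α) (x : ι → Perm α) (p : α) (t : ℕ) (i : ι) (e : Bool)
    (hL : L t = .inr (i, e)) (hf : Fresh L x p t i e) (z' : α)
    (hz' : ∀ s ≤ t, P L x p s ≠ z') :
    P L (modi x i e (P L x p (t + 1)) z') p (t + 1) = z' := by
  rw [P_succ L (modi x i e (P L x p (t + 1)) z'), hL, act_modi,
    P_modi L x p t i e hL hf z' hz' t le_rfl, Equiv.Perm.mul_apply]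
  have hz : P L x p (t + 1) = act x (.inr (i, e)) (P L x p t) := by rw [P_succ, hL]
  rw [← hz, swap_apply_left]

open Classical in
/-- Few assignments have a prescribed coincidence. -/
lemma card_coinc (L : ℕ → Step ι α) (p : α) (t : ℕ) (i : ι) (e : Bool)
    (hL : L t = .inr (i, e)) (b : ℕ) (hb : b ≤ t) (κ : Perm α) :
    (univ.filter (fun x : ι → Perm α => Fresh L x p t i e ∧
      P L x p (t + 1) = κ (P L x p b))).card * (Fintype.card α - (t + 1)) ≤
      Fintype.card (ι → Perm α) := by
  set A := univ.filter (fun x : ι → Perm α => Fresh L x p t i e ∧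
      P L x p (t + 1) = κ (P L x p b)) with hA
  let S : (ι → Perm α) → Finset α := fun x => univ \ ((Finset.range (t + 1)).image (P L x p))
  have hS : ∀ x, Fintype.card α - (t + 1) ≤ (S x).card := by
    intro x
    have h1 : (((Finset.range (t + 1)).image (P L x p))).card ≤ t + 1 := by
      refine Finset.card_image_le.trans ?_
      simp
    have h2 : (S x).card = Fintype.card α - (((Finset.range (t + 1)).image (P L x p))).card := by
      rw [Finset.card_sdiff_of_subset (Finset.subset_univ _), Finset.card_univ]
    omega
  have hcount : (A.sigma (fun x => S x)).card ≤ (univ : Finset (ι → Perm α)).card := by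
    apply Finset.card_le_card_of_injOn
      (fun q : (Σ _ : (ι → Perm α), α) => modi q.1 i e (P L q.1 p (t + 1)) q.2)
    · intro q _; exact Finset.mem_coe.2 (Finset.mem_univ _)
    · rintro ⟨x1, z1⟩ hx1 ⟨x2, z2⟩ hx2 h
      simp only [Finset.coe_sigma, Set.mem_sigma_iff, Finset.mem_coe] at hx1 hx2
      obtain ⟨hxA1, hzS1⟩ := hx1
      obtain ⟨hxA2, hzS2⟩ := hx2
      rw [hA, Finset.mem_filter] at hxA1 hxA2
      obtain ⟨-, hf1, hk1⟩ := hxA1
      obtain ⟨-, hf2, hk2⟩ := hxA2
      have hz1 : ∀ s ≤ t, P L x1 p s ≠ z1 := by
        intro s hs hne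
        simp only [S, Finset.mem_sdiff, Finset.mem_univ, true_and, Finset.mem_image,
          Finset.mem_range, not_exists, not_and] at hzS1
        exact hzS1 s (by omega) hne
      have hz2 : ∀ s ≤ t, P L x2 p s ≠ z2 := by
        intro s hs hne
        simp only [S, Finset.mem_sdiff, Finset.mem_univ, true_and, Finset.mem_image,
          Finset.mem_range, not_exists, not_and] at hzS2
        exact hzS2 s (by omega) hne
      simp only at h
      have e1 := P_modi L x1 p t i e hL hf1 z1 hz1
      have e2 := P_modi L x2 p t i e hL hf2 z2 hz2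
      have l1 := P_modi_last L x1 p t i e hL hf1 z1 hz1
      have l2 := P_modi_last L x2 p t i e hL hf2 z2 hz2
      have hzz : z1 = z2 := by rw [← l1, ← l2, h]
      have hpb : P L x1 p b = P L x2 p b := by rw [← e1 b hb, ← e2 b hb, h]
      have hzz' : P L x1 p (t + 1) = P L x2 p (t + 1) := by rw [hk1, hk2, hpb]
      have hx : x1 = x2 := by
        rw [← modi_modi x1 i e (P L x1 p (t + 1)) z1, ← modi_modi x2 i e (P L x2 p (t + 1)) z2, h,
          hzz', hzz]
      subst hx
      subst hzz
      rfl
  rw [Finset.card_sigma, Finset.card_univ] at hcount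
  refine le_trans ?_ hcount
  rw [Finset.card_eq_sum_ones, Finset.sum_mul]
  apply Finset.sum_le_sum
  intro x _
  rw [one_mul]
  exact hS x

end Pool.Agent.R160.WC
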