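import Mathlib
import Pool.Agent.R160.WC1

namespace Pool.Agent.R160.WC

open Equiv Equiv.Perm Finset

open scoped Pointwise

variable {ι : Type} [Fintype ι] [DecidableEq ι] {α : Type} [Fintype α] [DecidableEq α]

/-- The constants of a word, their inverses and the identity. -/
def consts (L : ℕ → Step ι α) (N : ℕ) : Finset (Perm α) :=
  insert (1 : Perm α) ((Finset.range N).biUnion fun t => match L t with
    | .inl c => ({c, c⁻¹} : Finset (Perm α))
    | .inr _ => ∅)

omit [Fintype ι] [DecidableEq ι] in
lemma consts_card (L : ℕ → Step ι α) (N : ℕ) : (consts L N).card ≤ 2 * N + 1 := by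
  unfold consts
  refine (Finset.card_insert_le _ _).trans ?_
  have : ((Finset.range N).biUnion fun t => match L t with
    | .inl c => ({c, c⁻¹} : Finset (Perm α))
    | .inr _ => ∅).card ≤ (Finset.range N).card * 2 := by
    apply Finset.card_biUnion_le_card_mul
    intro t _
    rcases L t with c | q
    · exact Finset.card_le_two
    · simp
  rw [Finset.card_range] at this
  omega

omit [Fintype ι] [DecidableEq ι] in
lemma one_mem_consts (L : ℕ → Step ι α) (N : ℕ) : (1 : Perm α) ∈ consts L N :=
  Finset.mem_insert_self _ _

omit [Fintype ι] [DecidableEq ι] in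
lemma mem_consts (L : ℕ → Step ι α) (N : ℕ) : ∀ t < N, ∀ c, L t = .inl c → c ∈ consts L N := by
  intro t ht c hc
  unfold consts
  apply Finset.mem_insert_of_mem
  rw [Finset.mem_biUnion]
  refine ⟨t, Finset.mem_range.2 ht, ?_⟩
  rw [hc]
  simp

omit [Fintype ι] [DecidableEq ι] in
lemma inv_mem_consts (L : ℕ → Step ι α) (N : ℕ) : ∀ κ ∈ consts L N, κ⁻¹ ∈ consts L N := by
  intro κ hκ
  unfold consts at hκ ⊢
  rw [Finset.mem_insert] at hκ
  rcases hκ with rfl | hκ
  · simp
  · apply Finset.mem_insert_of_mem
    rw [Finset.mem_biUnion] at hκ ⊢
    obtain ⟨t, ht, hκ⟩ := hκ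
    refine ⟨t, ht, ?_⟩
    rcases hL : L t with c | q
    · rw [hL] at hκ
      simp only [Finset.mem_insert, Finset.mem_singleton] at hκ ⊢
      rcases hκ with rfl | rfl
      · right; rfl
      · left; simp
    · rw [hL] at hκ
      simp at hκ

open Classical in
/-- For a non-singular mixed word and a fixed point `p`, few assignments close the trajectory. -/
lemma card_closed (L : ℕ → Step ι α) (N : ℕ) (hg : g L N ≠ 1) (hn : 2 * N ≤ Fintype.card α) (p : α) :
    (univ.filter (fun x : ι → Perm α => P L x p N = p)).card * Fintype.card α ≤
      (2 * N ^ 2 * (2 * N + 1) ^ N) * Fintype.card (ι → Perm α) := by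
  set D := (consts L N) ^ N with hD
  have hDc : D.card ≤ (2 * N + 1) ^ N :=
    Finset.card_pow_le.trans (Nat.pow_le_pow_left (consts_card L N) N)
  let A : ℕ → ℕ → Perm α → Finset (ι → Perm α) := fun t b κ =>
    match L t with
    | .inl _ => ∅
    | .inr (i, e) => univ.filter (fun x : ι → Perm α => Fresh L x p t i e ∧
      P L x p (t + 1) = κ (P L x p b))
  have hA : ∀ t < N, ∀ b ≤ t, ∀ κ, (A t b κ).card * Fintype.card α ≤
      2 * Fintype.card (ι → Perm α) := by
    intro t ht b hb κ
    have h1 : (A t b κ).card * (Fintype.card α - (t + 1)) ≤ Fintype.card (ι → Perm α) := by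
      simp only [A]
      rcases hL : L t with c | ⟨i, e⟩
      · simp
      · exact card_coinc L p t i e hL b hb κ
    have h2 : Fintype.card α ≤ 2 * (Fintype.card α - (t + 1)) := by omega
    calc (A t b κ).card * Fintype.card α ≤ (A t b κ).card * (2 * (Fintype.card α - (t + 1))) :=
          Nat.mul_le_mul_left _ h2
      _ = 2 * ((A t b κ).card * (Fintype.card α - (t + 1))) := by ring
      _ ≤ _ := Nat.mul_le_mul_left _ h1
  have hsub : univ.filter (fun x : ι → Perm α => P L x p N = p) ⊆
      (Finset.range N).biUnion fun t => (Finset.range N).biUnion fun b =>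
        if b ≤ t then D.biUnion fun κ => A t b κ else ∅ := by
    intro x hx
    rw [Finset.mem_filter] at hx
    by_contra hcon
    apply hg
    have hno : ∀ t < N, ¬ Coinc L x p D t := by
      rintro t ht ⟨i, e, hL, hf, b, hb, κ, hκ, hP⟩
      apply hcon
      rw [Finset.mem_biUnion]
      refine ⟨t, Finset.mem_range.2 ht, ?_⟩
      rw [Finset.mem_biUnion]
      refine ⟨b, Finset.mem_range.2 (by omega), ?_⟩
      rw [if_pos hb, Finset.mem_biUnion]
      refine ⟨κ, hκ, ?_⟩
      simp only [A]
      rw [hL]
      simp only [Finset.mem_filter, Finset.mem_univ, true_and]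
      exact ⟨hf, hP⟩
    have := det L x p (consts L N) N (one_mem_consts L N) (inv_mem_consts L N) (mem_consts L N)
      hno N le_rfl N le_rfl 0 (Nat.zero_le _) 1 (Finset.one_mem_pow (one_mem_consts L N))
      (by simpa [P] using hx.2)
    rw [this]
    rfl
  have hcard := Finset.card_le_card hsub
  have hcount : ((Finset.range N).biUnion fun t => (Finset.range N).biUnion fun b =>
        if b ≤ t then D.biUnion fun κ => A t b κ else ∅).card * Fintype.card α ≤
      N * (N * (D.card * (2 * Fintype.card (ι → Perm α)))) := by
    calc ((Finset.range N).biUnion fun t => (Finset.range N).biUnion fun b =>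
        if b ≤ t then D.biUnion fun κ => A t b κ else ∅).card * Fintype.card α
        ≤ (∑ t ∈ Finset.range N, ((Finset.range N).biUnion fun b =>
        if b ≤ t then D.biUnion fun κ => A t b κ else ∅).card) * Fintype.card α :=
          Nat.mul_le_mul_right _ Finset.card_biUnion_le
      _ = ∑ t ∈ Finset.range N, ((Finset.range N).biUnion fun b =>
        if b ≤ t then D.biUnion fun κ => A t b κ else ∅).card * Fintype.card α := by
          rw [Finset.sum_mul]
      _ ≤ ∑ t ∈ Finset.range N, N * (D.card * (2 * Fintype.card (ι → Perm α))) := by
          apply Finset.sum_le_sum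
          intro t ht
          rw [Finset.mem_range] at ht
          calc ((Finset.range N).biUnion fun b =>
              if b ≤ t then D.biUnion fun κ => A t b κ else ∅).card * Fintype.card α
              ≤ (∑ b ∈ Finset.range N, (if b ≤ t then D.biUnion fun κ => A t b κ else ∅).card) *
                Fintype.card α := Nat.mul_le_mul_right _ Finset.card_biUnion_le
            _ = ∑ b ∈ Finset.range N, (if b ≤ t then D.biUnion fun κ => A t b κ else ∅).card *
                Fintype.card α := by rw [Finset.sum_mul]
            _ ≤ ∑ b ∈ Finset.range N, (D.card * (2 * Fintype.card (ι → Perm α))) := by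
                apply Finset.sum_le_sum
                intro b hb
                by_cases hbt : b ≤ t
                · rw [if_pos hbt]
                  calc (D.biUnion fun κ => A t b κ).card * Fintype.card α
                      ≤ (∑ κ ∈ D, (A t b κ).card) * Fintype.card α :=
                        Nat.mul_le_mul_right _ Finset.card_biUnion_le
                    _ = ∑ κ ∈ D, (A t b κ).card * Fintype.card α := by rw [Finset.sum_mul]
                    _ ≤ ∑ κ ∈ D, 2 * Fintype.card (ι → Perm α) :=
                        Finset.sum_le_sum fun κ _ => hA t ht b hbt κ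
                    _ = _ := by rw [Finset.sum_const, smul_eq_mul]
                · rw [if_neg hbt]; simp
            _ = _ := by rw [Finset.sum_const, smul_eq_mul, Finset.card_range]
      _ = _ := by rw [Finset.sum_const, smul_eq_mul, Finset.card_range]
  calc (univ.filter (fun x : ι → Perm α => P L x p N = p)).card * Fintype.card α
      ≤ _ := Nat.mul_le_mul_right _ hcard
    _ ≤ N * (N * (D.card * (2 * Fintype.card (ι → Perm α)))) := hcount
    _ ≤ N * (N * ((2 * N + 1) ^ N * (2 * Fintype.card (ι → Perm α)))) := by gcongr
    _ = _ := by ring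

/-- The value of a mixed word (a list of steps, the last one acting first). -/
def val (x : ι → Perm α) (S : List (Step ι α)) : Perm α := (S.map (act x)).prod

/-- The free part of a mixed word. -/
def frl (S : List (Step ι α)) : FreeGroup ι := (S.map fr).prod

omit [Fintype ι] [DecidableEq ι] [Fintype α] [DecidableEq α] in
lemma val_eq (L : ℕ → Step ι α) (x : ι → Perm α) (p : α) (S : List (Step ι α))
    (h : ∀ t < S.length, S.reverse[t]? = some (L t)) :
    P L x p S.length = val x S p ∧ g L S.length = frl S := by
  induction S with
  | nil => simp [val, frl, P, g]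
  | cons a S ih =>
    have ih' := ih (by
      intro t ht
      have := h t (by simp; omega)
      rw [List.reverse_cons, List.getElem?_append_left (by simpa using ht)] at this
      exact this)
    have hl := h S.length (by simp)
    rw [List.reverse_cons, List.getElem?_append_right (by simp)] at hl
    simp only [List.length_reverse, Nat.sub_self, List.getElem?_cons_zero, Option.some.injEq] at hl
    rw [List.length_cons]
    constructor
    · rw [P_succ, ih'.1, ← hl]
      simp [val]
    · rw [g_succ, ih'.2, ← hl]
      simp [frl]

/-- The number of fixed points of a permutation. -/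
def nfix (σ : Perm α) : ℕ := (univ.filter (fun p => σ p = p)).card

/-- The expected number of fixed points of a non-singular mixed word is bounded. -/
theorem sum_nfix_le (S : List (Step ι α)) (hS : frl S ≠ 1) (hn : 2 * S.length ≤ Fintype.card α) :
    ∑ x : ι → Perm α, nfix (val x S) ≤
      (2 * S.length ^ 2 * (2 * S.length + 1) ^ S.length) * Fintype.card (ι → Perm α) := by
  classical
  let L : ℕ → Step ι α := fun t => (S.reverse[t]?).getD (.inl 1)
  have hL : ∀ t < S.length, S.reverse[t]? = some (L t) := by
    intro t ht
    simp only [L]
    rw [List.getElem?_eq_getElem (by simpa using ht)]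
    simp
  rcases Nat.eq_zero_or_pos (Fintype.card α) with h0 | hpos
  · have : ∀ σ : Perm α, nfix σ = 0 := by
      intro σ
      unfold nfix
      rw [Finset.card_eq_zero]
      have : IsEmpty α := Fintype.card_eq_zero_iff.1 h0
      exact Finset.eq_empty_of_isEmpty _
    simp [this]
  · have hswap : ∑ x : ι → Perm α, nfix (val x S) =
        ∑ p : α, (univ.filter (fun x : ι → Perm α => P L x p S.length = p)).card := by
      unfold nfix
      simp_rw [Finset.card_filter]
      rw [Finset.sum_comm]
      apply Finset.sum_congr rfl
      intro p _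
      apply Finset.sum_congr rfl
      intro x _
      rw [(val_eq L x p S hL).1]
    have hg : g L S.length ≠ 1 := by
      rcases isEmpty_or_nonempty α with hα | ⟨⟨p⟩⟩
      · rw [Fintype.card_eq_zero] at hpos; omega
      · rw [(val_eq L (fun _ => 1) p S hL).2]; exact hS
    rw [hswap]
    have hmul : (∑ p : α, (univ.filter (fun x : ι → Perm α => P L x p S.length = p)).card) *
        Fintype.card α ≤ (2 * S.length ^ 2 * (2 * S.length + 1) ^ S.length *
          Fintype.card (ι → Perm α)) * Fintype.card α := by
      rw [Finset.sum_mul]
      calc ∑ p : α, (univ.filter (fun x : ι → Perm α => P L x p S.length = p)).card *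
            Fintype.card α ≤ ∑ _p : α, (2 * S.length ^ 2 * (2 * S.length + 1) ^ S.length *
              Fintype.card (ι → Perm α)) :=
            Finset.sum_le_sum fun p _ => card_closed L S.length hg hn p
        _ = _ := by rw [Finset.sum_const, smul_eq_mul, Finset.card_univ]; ring
    exact Nat.le_of_mul_le_mul_right hmul hpos

end Pool.Agent.R160.WC
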