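import Mathlib
import Pool.Agent.R160.WC2

namespace Pool.Agent.R160.WC

open Equiv Equiv.Perm Finset

variable {α : Type} [Fintype α] [DecidableEq α]

/-- The number of cycles, fixed points included. -/
noncomputable def cyc (σ : Perm α) : ℕ := Nat.card (Quotient (SameCycle.setoid σ))

omit [Fintype α] in
lemma merge_ba [Finite α] (σ : Perm α) (a b : α) (h : ¬ SameCycle σ a b) :
    SameCycle (swap a b * σ) b a := by
  classical
  have hex : ∃ k, 0 < k ∧ (σ ^ k) b = b := by
    refine ⟨orderOf σ, orderOf_pos σ, ?_⟩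
    rw [pow_orderOf_eq_one]; rfl
  obtain ⟨hk0, hk⟩ := Nat.find_spec hex
  set k := Nat.find hex with hkdef
  have hmin : ∀ j, 0 < j → j < k → (σ ^ j) b ≠ b := by
    intro j hj hjk hb
    exact Nat.find_min hex hjk ⟨hj, hb⟩
  have hna : ∀ j : ℕ, (σ ^ j) b ≠ a := by
    intro j hj
    apply h
    exact (SameCycle.symm ⟨j, by simpa using hj⟩)
  have hit : ∀ j < k, ((swap a b * σ) ^ j) b = (σ ^ j) b := by
    intro j
    induction j with
    | zero => intro _; simp
    | succ j ih =>
      intro hj
      rw [pow_succ', Equiv.Perm.mul_apply, ih (by omega), Equiv.Perm.mul_apply, ← Equiv.Perm.mul_apply σ,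
        ← pow_succ']
      exact swap_apply_of_ne_of_ne (hna _) (hmin _ (by omega) hj)
  refine ⟨(k : ℤ), ?_⟩
  rw [zpow_natCast]
  have hk1 : k = (k - 1) + 1 := by omega
  rw [hk1, pow_succ', Equiv.Perm.mul_apply, hit (k - 1) (by omega), Equiv.Perm.mul_apply,
    ← Equiv.Perm.mul_apply σ, ← pow_succ', ← hk1, hk]
  exact swap_apply_right a b

omit [Fintype α] in
lemma merge_step [Finite α] (σ : Perm α) (a b : α) (h : ¬ SameCycle σ a b) (x : α) :
    SameCycle (swap a b * σ) x (σ x) := by
  have h1 : SameCycle (swap a b * σ) x ((swap a b * σ) x) := ⟨1, by simp⟩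
  by_cases ha : σ x = a
  · have h2 : (swap a b * σ) x = b := by rw [Equiv.Perm.mul_apply, ha, swap_apply_left]
    rw [h2] at h1
    rw [ha]
    exact h1.trans (merge_ba σ a b h)
  · by_cases hb : σ x = b
    · have h2 : (swap a b * σ) x = a := by rw [Equiv.Perm.mul_apply, hb, swap_apply_right]
      rw [h2] at h1
      rw [hb]
      exact h1.trans (merge_ba σ a b h).symm
    · have h2 : (swap a b * σ) x = σ x := by
        rw [Equiv.Perm.mul_apply, swap_apply_of_ne_of_ne ha hb]
      rw [h2] at h1
      exact h1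

omit [Fintype α] in
lemma merge_mono [Finite α] (σ : Perm α) (a b : α) (h : ¬ SameCycle σ a b) (x y : α)
    (hxy : SameCycle σ x y) : SameCycle (swap a b * σ) x y := by
  obtain ⟨i, -, hi⟩ := SameCycle.exists_pow_eq' hxy
  have : ∀ i : ℕ, SameCycle (swap a b * σ) x ((σ ^ i) x) := by
    intro i
    induction i with
    | zero => exact SameCycle.refl _ _
    | succ i ih =>
      rw [pow_succ', Equiv.Perm.mul_apply]
      exact ih.trans (merge_step σ a b h _)
  rw [← hi]
  exact this i

omit [Fintype α] in
lemma merge_card [Finite α] (σ : Perm α) (a b : α) (h : ¬ SameCycle σ a b) :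
    cyc (swap a b * σ) < cyc σ := by
  classical
  unfold cyc
  let f : Quotient (SameCycle.setoid σ) → Quotient (SameCycle.setoid (swap a b * σ)) :=
    Quotient.map' id (fun x y hxy => merge_mono σ a b h x y hxy)
  have hsurj : Function.Surjective f := by
    intro q
    induction q using Quotient.inductionOn' with
    | h x => exact ⟨Quotient.mk'' x, rfl⟩
  have hninj : ¬ Function.Injective f := by
    intro hinj
    apply h
    have : f (Quotient.mk'' a) = f (Quotient.mk'' b) :=
      Quotient.sound' (merge_ba σ a b h).symm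
    exact Quotient.exact' (hinj this)
  refine lt_of_le_of_ne (Nat.card_le_card_of_surjective f hsurj) ?_
  intro heq
  apply hninj
  exact (Function.Surjective.bijective_of_nat_card_le hsurj heq.ge).1

lemma exists_full (m : ℕ) : ∀ σ : Perm α, cyc σ ≤ m →
    ∃ σ' : Perm α, (∀ x y, SameCycle σ' x y) ∧ (univ.filter (fun x => σ' x ≠ σ x)).card ≤ 2 * m := by
  induction m with
  | zero =>
    intro σ h
    refine ⟨σ, ?_, by simp⟩
    intro x y
    exfalso
    have h0 : Nat.card (Quotient (SameCycle.setoid σ)) = 0 := Nat.le_zero.1 h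
    have : Nonempty (Quotient (SameCycle.setoid σ)) := ⟨Quotient.mk'' x⟩
    exact (Nat.card_pos (α := Quotient (SameCycle.setoid σ))).ne' h0
  | succ m ih =>
    intro σ h
    by_cases hall : ∀ x y, SameCycle σ x y
    · exact ⟨σ, hall, by simp⟩
    · push Not at hall
      obtain ⟨a, b, hab⟩ := hall
      have h1 := merge_card σ a b hab
      obtain ⟨σ', hσ', hc⟩ := ih (swap a b * σ) (by omega)
      refine ⟨σ', hσ', ?_⟩
      have hsub : univ.filter (fun x => σ' x ≠ σ x) ⊆
          univ.filter (fun x => σ' x ≠ (swap a b * σ) x) ∪ {σ⁻¹ a, σ⁻¹ b} := by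
        intro x hx
        rw [Finset.mem_filter] at hx
        rw [Finset.mem_union, Finset.mem_filter]
        by_contra hcon
        push Not at hcon
        obtain ⟨h2, h3⟩ := hcon
        have h2' := h2 (Finset.mem_univ x)
        simp only [Finset.mem_insert, Finset.mem_singleton, not_or] at h3
        apply hx.2
        rw [h2', Equiv.Perm.mul_apply]
        apply swap_apply_of_ne_of_ne
        · intro h4; exact h3.1 (by rw [← h4]; simp)
        · intro h4; exact h3.2 (by rw [← h4]; simp)
      calc _ ≤ _ := Finset.card_le_card hsub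
        _ ≤ _ := Finset.card_union_le _ _
        _ ≤ 2 * m + 2 := Nat.add_le_add hc Finset.card_le_two
        _ = _ := by ring

lemma full_conj (σ π : Perm α) (hσ : ∀ x y, SameCycle σ x y) (hπ : ∀ x y, SameCycle π x y) :
    ∃ κ : Perm α, κ * π * κ⁻¹ = σ := by
  rcases subsingleton_or_nontrivial α with hs | hn
  · exact ⟨1, Equiv.ext fun x => Subsingleton.elim _ _⟩
  · have hne : ∀ τ : Perm α, (∀ x y, SameCycle τ x y) → ∀ x, τ x ≠ x := by
      intro τ hτ x hx
      obtain ⟨y, hy⟩ := exists_ne x
      exact hy ((hτ x y).eq_of_left hx).symm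
    have hcyc : ∀ τ : Perm α, (∀ x y, SameCycle τ x y) → τ.IsCycle := by
      intro τ hτ
      obtain ⟨x⟩ := (inferInstance : Nonempty α)
      exact ⟨x, hne τ hτ x, fun y _ => hτ x y⟩
    have hsupp : ∀ τ : Perm α, (∀ x y, SameCycle τ x y) → τ.support = univ := by
      intro τ hτ
      ext x
      simp [hne τ hτ x]
    have hconj : IsConj π σ := by
      rw [(hcyc π hπ).isConj_iff (hcyc σ hσ), hsupp π hπ, hsupp σ hσ]
    rw [isConj_iff] at hconj
    exact hconj

/-- Two permutations with few cycles can be conjugated to be close. -/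
lemma exists_conj_close (σ π : Perm α) : ∃ κ : Perm α,
    (univ.filter (fun x => σ x ≠ (κ * π * κ⁻¹) x)).card ≤ 2 * cyc σ + 2 * cyc π := by
  obtain ⟨σ', hσ', hcσ⟩ := exists_full (cyc σ) σ le_rfl
  obtain ⟨π', hπ', hcπ⟩ := exists_full (cyc π) π le_rfl
  obtain ⟨κ, hκ⟩ := full_conj σ' π' hσ' hπ'
  refine ⟨κ, ?_⟩
  have hsub : univ.filter (fun x => σ x ≠ (κ * π * κ⁻¹) x) ⊆
      univ.filter (fun x => σ' x ≠ σ x) ∪
        (univ.filter (fun x => π' x ≠ π x)).image κ := by
    intro x hx
    rw [Finset.mem_filter] at hx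
    rw [Finset.mem_union, Finset.mem_filter, Finset.mem_image]
    by_cases h1 : σ' x = σ x
    · right
      refine ⟨κ⁻¹ x, ?_, by simp⟩
      rw [Finset.mem_filter]
      refine ⟨Finset.mem_univ _, ?_⟩
      intro h2
      apply hx.2
      rw [← h1, ← hκ]
      simp only [Equiv.Perm.mul_apply]
      rw [h2]
    · left
      exact ⟨Finset.mem_univ _, h1⟩
  calc _ ≤ _ := Finset.card_le_card hsub
    _ ≤ _ := Finset.card_union_le _ _
    _ ≤ 2 * cyc σ + 2 * cyc π := Nat.add_le_add hcσ (Finset.card_image_le.trans hcπ)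

open Classical in
/-- Few fixed points of the first powers means few cycles. -/
lemma mul_cyc_le (σ : Perm α) (m : ℕ) : m * cyc σ ≤
    Fintype.card α + m * ∑ k ∈ Finset.Icc 1 m, nfix (σ ^ k) := by
  let Q := Quotient (SameCycle.setoid σ)
  have : Fintype Q := Fintype.ofFinite Q
  have hout : ∀ q : Q, Quotient.mk'' q.out = q := fun q => Quotient.out_eq' q
  obtain ⟨pr, hpr⟩ : ∃ pr : Q → Prop, ∀ q, pr q ↔ ∃ k ∈ Finset.Icc 1 m,
      (σ ^ k) q.out = q.out := ⟨_, fun _ => Iff.rfl⟩
  let short : Finset Q := univ.filter (fun q => pr q)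
  let long : Finset Q := univ.filter (fun q => ¬ pr q)
  have hsplit : cyc σ = short.card + long.card := by
    unfold cyc
    rw [Nat.card_eq_fintype_card]
    exact (Finset.card_filter_add_card_filter_not _).symm
  have hshort : short.card ≤ ∑ k ∈ Finset.Icc 1 m, nfix (σ ^ k) := by
    have h1 : short.card ≤ ((Finset.Icc 1 m).biUnion
        (fun k => univ.filter (fun p => (σ ^ k) p = p))).card := by
      apply Finset.card_le_card_of_injOn (fun q => q.out)
      · intro q hq
        rw [Finset.mem_coe, Finset.mem_filter, hpr] at hq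
        obtain ⟨-, k, hk, hfix⟩ := hq
        rw [Finset.mem_coe, Finset.mem_biUnion]
        exact ⟨k, hk, by rw [Finset.mem_filter]; exact ⟨Finset.mem_univ _, hfix⟩⟩
      · intro q1 _ q2 _ h
        simp only at h
        rw [← hout q1, ← hout q2, h]
    exact h1.trans Finset.card_biUnion_le
  have hlong : m * long.card ≤ Fintype.card α := by
    have h1 : (long ×ˢ (Finset.range m)).card ≤ (univ : Finset α).card := by
      apply Finset.card_le_card_of_injOn (fun qj => (σ ^ qj.2) qj.1.out)
      · intro _ _; exact Finset.mem_coe.2 (Finset.mem_univ _)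
      · rintro ⟨q1, j1⟩ h1 ⟨q2, j2⟩ h2 h
        simp only [Finset.coe_product, Set.mem_prod, Finset.mem_coe, Finset.mem_range] at h1 h2
        simp only at h
        have hq : q1 = q2 := by
          rw [← hout q1, ← hout q2]
          apply Quotient.sound'
          change SameCycle σ q1.out q2.out
          have e1 : SameCycle σ q1.out ((σ ^ j1) q1.out) := ⟨j1, by simp⟩
          have e2 : SameCycle σ q2.out ((σ ^ j2) q2.out) := ⟨j2, by simp⟩
          rw [← h] at e2
          exact e1.trans e2.symm
        subst hq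
        have hl : ¬ ∃ k ∈ Finset.Icc 1 m, (σ ^ k) q1.out = q1.out := by
          have := h1.1
          rw [Finset.mem_filter, hpr] at this
          exact this.2
        have hkey : ∀ i j : ℕ, i < j → j < m → (σ ^ i) q1.out ≠ (σ ^ j) q1.out := by
          intro i j hij hj heq
          apply hl
          refine ⟨j - i, Finset.mem_Icc.2 ⟨by omega, by omega⟩, ?_⟩
          have h3 : σ ^ j = σ ^ i * σ ^ (j - i) := by
            rw [← pow_add]; congr 1; omega
          rw [h3, Equiv.Perm.mul_apply] at heq
          exact ((σ ^ i).injective heq).symm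
        rcases lt_trichotomy j1 j2 with hlt | heq | hgt
        · exact absurd h (hkey j1 j2 hlt h2.2)
        · rw [heq]
        · exact absurd h.symm (hkey j2 j1 hgt h1.2)
    rw [Finset.card_product, Finset.card_range, Finset.card_univ] at h1
    rw [Nat.mul_comm]
    exact h1
  rw [hsplit, Nat.mul_add]
  have := Nat.mul_le_mul_left m hshort
  omega

end Pool.Agent.R160.WC
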